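import Pool.Agent.Y160.SE.Stmts

set_option autoImplicit false
set_option linter.all false

namespace Pool.Agent.Y228.SE

open CommRing nonZeroDivisors Pool.Agent.Y160.SE

variable {R : Type} [CommRing R] [IsDedekindDomain R]

theorem equivPic_mk0_aux (I : Ideal R) (hI : I ∈ (Ideal R)⁰) :
    ClassGroup.equivPic R (ClassGroup.mk0 ⟨I, hI⟩) =
      Submodule.unitsToPic R (FractionRing R)
        (FractionalIdeal.unitsMulEquivSubmodule (FractionalIdeal.mk0 (FractionRing R) ⟨I, hI⟩)) := by
  have h := ClassGroup.mk0_eq_quotientMk (R := R) ⟨I, hI⟩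
  exact (congrArg (ClassGroup.equivPic R) h).trans rfl

/-- a nonzero ideal as a module is the submodule of the fraction field it spans -/
noncomputable def idealEquiv (I : Ideal R) (hI : I ∈ (Ideal R)⁰) :
    I ≃ₗ[R] ((FractionalIdeal.unitsMulEquivSubmodule
      (FractionalIdeal.mk0 (FractionRing R) ⟨I, hI⟩) : (Submodule R (FractionRing R))ˣ) :
        Submodule R (FractionRing R)) :=
  (Submodule.equivMapOfInjective (Algebra.linearMap R (FractionRing R))
    (IsFractionRing.injective R (FractionRing R)) I).trans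
    (LinearEquiv.ofEq _ _ (by
      show _ = ((FractionalIdeal.mk0 (FractionRing R) ⟨I, hI⟩ : (FractionalIdeal R⁰ (FractionRing R))ˣ) :
        FractionalIdeal R⁰ (FractionRing R)).coeToSubmodule
      rw [FractionalIdeal.coe_mk0]
      rfl))

theorem inv_ideal (I : Ideal R) (hI : I ∈ (Ideal R)⁰) : Module.Invertible R I :=
  Module.Invertible.congr (idealEquiv I hI).symm

theorem equivPic_mk0 (I : Ideal R) (hI : I ∈ (Ideal R)⁰) [Module.Invertible R I] :
    ClassGroup.equivPic R (ClassGroup.mk0 ⟨I, hI⟩) = Pic.mk R I := by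
  rw [equivPic_mk0_aux]
  rw [Submodule.unitsToPic_apply, Pic.mk_eq_mk_iff]
  exact ⟨(idealEquiv I hI).symm⟩


open TensorProduct in
/-- base change of an ideal along a flat map -/
noncomputable def tensorIdeal {S : Type} [CommRing S] [Algebra R S] [Module.Flat R S] (I : Ideal R) :
    S ⊗[R] I ≃ₗ[S] I.map (algebraMap R S) := by
  let f : S ⊗[R] I →ₗ[S] S :=
    (AlgebraTensorModule.rid _ _ _).toLinearMap ∘ₗ AlgebraTensorModule.lTensor S S I.subtype
  have hf : Function.Injective f := by
    simp only [f, LinearMap.coe_comp, LinearEquiv.coe_coe, EmbeddingLike.comp_injective]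
    exact Module.Flat.lTensor_preserves_injective_linearMap (M := S) I.subtype
      (Submodule.injective_subtype I)
  have : I.map (algebraMap R S) = LinearMap.range f := by
    refine le_antisymm ?_ ?_
    · rw [Ideal.map_le_iff_le_comap]
      intro x hx
      use 1 ⊗ₜ ⟨x, hx⟩
      simp [f, Algebra.smul_def]
    · rintro - ⟨x, rfl⟩
      induction x with
      | zero => simp
      | add _ _ _ _ => simp_all [Ideal.add_mem]
      | tmul s x =>
        have : f (s ⊗ₜ[R] x) = s • f (1 ⊗ₜ x) := by simp [f]
        rw [this]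
        apply Ideal.mul_mem_left
        simpa [f, Algebra.smul_def] using Ideal.mem_map_of_mem _ x.2
  exact .ofInjective _ hf ≪≫ₗ .ofEq _ _ this.symm

open TensorProduct in
theorem stPic : StPic := by
  intro R S _ _ _ _ φ hφ I hI hI'
  have m1 : I ∈ (Ideal R)⁰ := mem_nonZeroDivisors_of_ne_zero hI
  have m2 : I.map φ ∈ (Ideal S)⁰ := mem_nonZeroDivisors_of_ne_zero hI'
  haveI : Module.Invertible R I := inv_ideal I m1
  haveI : Module.Invertible S (I.map φ) := inv_ideal _ m2
  letI := φ.toAlgebra
  rw [equivPic_mk0 I m1, equivPic_mk0 _ m2]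
  haveI : FaithfulSMul R S := (faithfulSMul_iff_algebraMap_injective R S).2 hφ
  haveI : Module.IsTorsionFree R S := inferInstance
  haveI : Module.Flat R S := inferInstance
  change Pic.mapAlgebra R S (Pic.mk R I) = _
  rw [Pic.mapAlgebra_apply, Pic.mk_eq_mk_iff]
  exact ⟨(AlgebraTensorModule.congr (LinearEquiv.refl S S) (Pic.mk.linearEquiv R I)).trans
    (tensorIdeal I)⟩

end Pool.Agent.Y228.SE
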