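import Pool.Agent.Y160.SE.Stmts

/-!
# Smoothness over the completions, from the Jacobian criterion
-/

set_option autoImplicit false
set_option linter.all false

open Polynomial IsDedekindDomain WithZero

namespace Pool.Agent.Y228.SE

open Pool.Agent.Y160.SE

section Approx

variable {A F : Type} [CommRing A] [IsDedekindDomain A] [Field F] [Algebra A F]
  [IsFractionRing A F] (v : HeightOneSpectrum A)

theorem val_pi (π : A) (hπ : v.intValuation π = exp (-1 : ℤ)) :
    Valued.v ((algebraMap A F π : F) : v.adicCompletion F) = exp (-1 : ℤ) := by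
  rw [HeightOneSpectrum.valuedAdicCompletion_eq_valuation',
    HeightOneSpectrum.valuation_of_algebraMap, hπ]

theorem pi_ne (π : A) (hπ : v.intValuation π = exp (-1 : ℤ)) :
    ((algebraMap A F π : F) : v.adicCompletion F) ≠ 0 := by
  intro h
  have h1 := val_pi (F := F) v π hπ
  rw [h, map_zero] at h1
  exact exp_ne_zero h1.symm

/-- Elements of valuation at most `exp (-2)` are divisible by the square of a uniformiser. -/
theorem exists_mul_of_le (π : A) (hπ : v.intValuation π = exp (-1 : ℤ))
    (y : v.adicCompletionIntegers F) (hy : Valued.v (y : v.adicCompletion F) ≤ exp (-2 : ℤ)) :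
    ∃ z : v.adicCompletionIntegers F,
      y = algebraMap A (v.adicCompletionIntegers F) π ^ 2 * z := by
  have h1 := val_pi (F := F) v π hπ
  have h0 := pi_ne (F := F) v π hπ
  refine ⟨⟨(y : v.adicCompletion F) / ((algebraMap A F π : F) : v.adicCompletion F) ^ 2, ?_⟩, ?_⟩
  · rw [HeightOneSpectrum.mem_adicCompletionIntegers, map_div₀, map_pow, h1]
    refine div_le_one_of_le₀ ?_ zero_le
    rw [← exp_nsmul]
    exact hy
  · apply Subtype.ext
    change (y : v.adicCompletion F) = ((algebraMap A F π : F) : v.adicCompletion F) ^ 2 *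
      ((y : v.adicCompletion F) / ((algebraMap A F π : F) : v.adicCompletion F) ^ 2)
    field_simp

/-- Density of `A` in the completion. -/
theorem exists_approx (π : A) (hπ : v.intValuation π = exp (-1 : ℤ))
    (y : v.adicCompletionIntegers F) :
    ∃ (r : A) (z : v.adicCompletionIntegers F),
      y = algebraMap A (v.adicCompletionIntegers F) r +
        algebraMap A (v.adicCompletionIntegers F) π ^ 2 * z := by
  have h1 := val_pi (F := F) v π hπ
  have h0 := pi_ne (F := F) v π hπ
  set e : v.adicCompletion F := ((algebraMap A F π : F) : v.adicCompletion F) ^ 2 with he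
  have he0 : e ≠ 0 := pow_ne_zero 2 h0
  have hev : Valued.v e = exp (-2 : ℤ) := by
    rw [he, map_pow, h1, ← exp_nsmul]
    rfl
  have hn : {z : v.adicCompletion F | Valued.v (z - (y : v.adicCompletion F)) < exp (-2 : ℤ)} ∈
      nhds (y : v.adicCompletion F) := by
    rw [Valued.mem_nhds]
    have h2 : (Valued.v : Valuation (v.adicCompletion F) ℤᵐ⁰).restrict e ≠ 0 := by simp [he0]
    refine ⟨Units.mk0 _ h2, fun z hz => ?_⟩
    rw [Units.val_mk0] at hz
    have h3 := (Valuation.restrict_lt_iff _).1 hz
    rw [hev] at h3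
    exact h3
  obtain ⟨x, hx⟩ := (HeightOneSpectrum.denseRange_algebraMap (K := F) v).exists_mem_open
    isOpen_interior ⟨_, mem_interior_iff_mem_nhds.2 hn⟩
  have hx0 := interior_subset hx
  have hx1 : Valued.v (((x : F) : v.adicCompletion F) - (y : v.adicCompletion F)) <
      exp (-2 : ℤ) := hx0
  have hx2 : v.valuation F x ≤ 1 := by
    rw [← HeightOneSpectrum.valuedAdicCompletion_eq_valuation' (v := v) x]
    have h5 : ((x : F) : v.adicCompletion F) = (((x : F) : v.adicCompletion F) - (y : v.adicCompletion F)) +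
        (y : v.adicCompletion F) := by ring
    rw [h5]
    refine (Valuation.map_add _ _ _).trans (max_le (hx1.le.trans ?_) y.2)
    rw [← exp_zero]
    exact exp_le_exp.2 (by norm_num)
  obtain ⟨r, hr⟩ := v.exists_valuation_sub_lt_of_integer hx2 (Units.mk0 (exp (-2 : ℤ)) exp_ne_zero)
  refine ⟨r, ?_⟩
  have h6 : Valued.v ((y - algebraMap A (v.adicCompletionIntegers F) r :
      v.adicCompletionIntegers F) : v.adicCompletion F) ≤ exp (-2 : ℤ) := by
    change Valued.v ((y : v.adicCompletion F) - ((algebraMap A F r : F) : v.adicCompletion F)) ≤ _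
    have h7 : (y : v.adicCompletion F) - ((algebraMap A F r : F) : v.adicCompletion F) =
      -((((x : F) : v.adicCompletion F) - (y : v.adicCompletion F)) +
        (((algebraMap A F r : F) : v.adicCompletion F) - ((x : F) : v.adicCompletion F))) := by ring
    rw [h7, Valuation.map_neg]
    refine (Valuation.map_add _ _ _).trans (max_le hx1.le ?_)
    rw [Units.val_mk0] at hr
    have h8 : ((algebraMap A F r : F) : v.adicCompletion F) - ((x : F) : v.adicCompletion F) =
      ((algebraMap A F r - x : F) : v.adicCompletion F) := by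
      have := map_sub (algebraMap F (v.adicCompletion F)) (algebraMap A F r) x
      exact this.symm
    rw [h8, HeightOneSpectrum.valuedAdicCompletion_eq_valuation']
    exact hr.le
  obtain ⟨z, hz⟩ := exists_mul_of_le v π hπ _ h6
  exact ⟨z, by rw [← hz]; ring⟩

/-- Elements of `A` which are divisible by `π ^ 2` in the completion are in the square of the ideal. -/
theorem mem_sq_of_dvd (π : A) (hπ : v.intValuation π = exp (-1 : ℤ)) (c : A)
    (z : v.adicCompletionIntegers F)
    (h : algebraMap A (v.adicCompletionIntegers F) c =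
      algebraMap A (v.adicCompletionIntegers F) π ^ 2 * z) : c ∈ v.asIdeal ^ 2 := by
  rw [← v.intValuation_le_pow_iff_mem, ← v.valuation_of_algebraMap (K := F),
    ← HeightOneSpectrum.valuedAdicCompletion_eq_valuation']
  have h1 := val_pi (F := F) v π hπ
  have h2 : ((algebraMap A F c : F) : v.adicCompletion F) =
      ((algebraMap A F π : F) : v.adicCompletion F) ^ 2 * (z : v.adicCompletion F) :=
    congrArg Subtype.val h
  rw [h2, map_mul, map_pow, h1, ← exp_nsmul]
  have h3 : Valued.v (z : v.adicCompletion F) ≤ 1 := z.2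
  calc exp (2 • (-1 : ℤ)) * Valued.v (z : v.adicCompletion F) ≤ exp (2 • (-1 : ℤ)) * 1 :=
        mul_le_mul_right h3 _
    _ = exp (-((2 : ℕ) : ℤ)) := by rw [mul_one]; rfl

theorem approx_poly (π : A) (hπ : v.intValuation π = exp (-1 : ℤ))
    (g : (v.adicCompletionIntegers F)[X]) :
    ∃ (g0 : A[X]) (h : (v.adicCompletionIntegers F)[X]),
      g = g0.map (algebraMap A (v.adicCompletionIntegers F)) +
        C (algebraMap A (v.adicCompletionIntegers F) π ^ 2) * h := by
  induction g using Polynomial.induction_on' with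
  | add p q hp hq =>
    obtain ⟨p0, p1, hp⟩ := hp
    obtain ⟨q0, q1, hq⟩ := hq
    refine ⟨p0 + q0, p1 + q1, ?_⟩
    rw [Polynomial.map_add]
    linear_combination hp + hq
  | monomial n a =>
    obtain ⟨r, z, hz⟩ := exists_approx (F := F) v π hπ a
    refine ⟨monomial n r, monomial n z, ?_⟩
    rw [map_monomial, C_mul_monomial, ← (monomial n).map_add, ← hz]

end Approx

/-- The derivative with respect to the inner variable. -/
noncomputable def dt {k : Type} [Field k] (f : k[X][X]) : k[X][X] :=
  f.sum fun i a => C (derivative a) * X ^ i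

theorem coeff_dt {k : Type} [Field k] (f : k[X][X]) (n : ℕ) :
    (dt f).coeff n = derivative (f.coeff n) := by
  rw [dt, Polynomial.sum_def, finset_sum_coeff]
  simp only [coeff_C_mul, coeff_X_pow]
  simp only [mul_ite, mul_one, mul_zero]
  rw [Finset.sum_ite_eq]
  split_ifs with h
  · rfl
  · rw [notMem_support_iff.1 h, derivative_zero]

theorem dt_add {k : Type} [Field k] (f g : k[X][X]) : dt (f + g) = dt f + dt g := by
  ext1 n
  rw [coeff_add, coeff_dt, coeff_dt, coeff_dt, coeff_add, derivative_add]

theorem dt_mul {k : Type} [Field k] (f g : k[X][X]) : dt (f * g) = dt f * g + f * dt g := by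
  ext1 n
  rw [coeff_add, coeff_dt, coeff_mul, coeff_mul, coeff_mul, derivative_sum,
    ← Finset.sum_add_distrib]
  refine Finset.sum_congr rfl fun x _ => ?_
  rw [coeff_dt, coeff_dt, derivative_mul]

theorem stSm : StSm := by
  intro k F _ _ _ _ v f hf a ha hirr hmem
  obtain ⟨π, hπ⟩ := v.intValuation_exists_uniformizer
  set φ : k[X][X] →+* (v.adicCompletionIntegers F)[X] := mapRingHom (algebraMap k[X] (v.adicCompletionIntegers F)) with hφ
  set J : Ideal (v.adicCompletionIntegers F)[X] := Ideal.span {a} ⊔ (IsLocalRing.maximalIdeal (v.adicCompletionIntegers F)).map C with hJ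
  set J0 : Ideal k[X][X] := J.comap φ with hJ0
  have hvm : ∀ c ∈ v.asIdeal, algebraMap k[X] (v.adicCompletionIntegers F) c ∈ IsLocalRing.maximalIdeal (v.adicCompletionIntegers F) := by
    intro c hc
    rw [IsLocalRing.mem_maximalIdeal, mem_nonunits_iff,
      HeightOneSpectrum.adicCompletionIntegers.isUnit_iff_valued_eq_one]
    change ¬ Valued.v ((algebraMap k[X] F c : F) : v.adicCompletion F) = 1
    rw [HeightOneSpectrum.valuedAdicCompletion_eq_valuation']
    exact ((v.valuation_lt_one_iff_mem c).2 hc).ne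
  have hπv : π ∈ v.asIdeal := by
    rw [← v.intValuation_lt_one_iff_mem, hπ, ← exp_zero]
    exact exp_lt_exp.2 (by norm_num)
  have hCJ : ∀ m ∈ IsLocalRing.maximalIdeal (v.adicCompletionIntegers F), C m ∈ J := fun m hm =>
    Ideal.mem_sup_right (Ideal.mem_map_of_mem C hm)
  have hCπ : C (algebraMap k[X] (v.adicCompletionIntegers F) π ^ 2) ∈ J := by
    refine hCJ _ ?_
    exact Ideal.pow_mem_of_mem _ (hvm π hπv) 2 (by norm_num)
  have hC0 : v.asIdeal.map C ≤ J0 := by
    rw [Ideal.map_le_iff_le_comap]
    intro c hc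
    rw [Ideal.mem_comap, hJ0, Ideal.mem_comap]
    have : φ (C c) = C (algebraMap k[X] (v.adicCompletionIntegers F) c) := by rw [hφ, coe_mapRingHom, map_C]
    rw [this]
    exact hCJ _ (hvm c hc)
  -- approximation of the elements of `J ^ 2`
  have key : ∀ w ∈ J ^ 2, ∃ w0 ∈ J0 ^ 2, ∃ h : (v.adicCompletionIntegers F)[X], w = φ w0 + C (algebraMap k[X] (v.adicCompletionIntegers F) π ^ 2) * h := by
    intro w hw
    rw [pow_two] at hw
    refine Submodule.mul_induction_on hw ?_ ?_
    · intro m hm n hn
      obtain ⟨m0, m1, hm1⟩ := approx_poly (F := F) v π hπ m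
      obtain ⟨n0, n1, hn1⟩ := approx_poly (F := F) v π hπ n
      have hm0 : m0 ∈ J0 := by
        rw [hJ0, Ideal.mem_comap]
        have : φ m0 = m - C (algebraMap k[X] (v.adicCompletionIntegers F) π ^ 2) * m1 := by
          rw [hm1]
          change _ = φ m0 + _ - _
          ring
        rw [this]
        exact Ideal.sub_mem _ hm (Ideal.mul_mem_right _ _ hCπ)
      have hn0 : n0 ∈ J0 := by
        rw [hJ0, Ideal.mem_comap]
        have : φ n0 = n - C (algebraMap k[X] (v.adicCompletionIntegers F) π ^ 2) * n1 := by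
          rw [hn1]
          change _ = φ n0 + _ - _
          ring
        rw [this]
        exact Ideal.sub_mem _ hn (Ideal.mul_mem_right _ _ hCπ)
      refine ⟨m0 * n0, ?_, φ m0 * n1 + m1 * φ n0 + C (algebraMap k[X] (v.adicCompletionIntegers F) π ^ 2) * m1 * n1, ?_⟩
      · rw [pow_two]
        exact Ideal.mul_mem_mul hm0 hn0
      · have e1 : m = φ m0 + C (algebraMap k[X] (v.adicCompletionIntegers F) π ^ 2) * m1 := hm1
        have e2 : n = φ n0 + C (algebraMap k[X] (v.adicCompletionIntegers F) π ^ 2) * n1 := hn1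
        rw [map_mul]
        conv_lhs => rw [e1, e2]
        ring
    · rintro x y ⟨x0, hx0, x1, hx⟩ ⟨y0, hy0, y1, hy⟩
      refine ⟨x0 + y0, Ideal.add_mem _ hx0 hy0, x1 + y1, ?_⟩
      rw [map_add]
      linear_combination hx + hy
  obtain ⟨w0, hw0, h, hw⟩ := key _ hmem
  have hfw : f - w0 ∈ J0 ^ 2 := by
    have h1 : φ (f - w0) = C (algebraMap k[X] (v.adicCompletionIntegers F) π ^ 2) * h := by
      rw [map_sub]
      have : φ f = f.map (algebraMap k[X] (v.adicCompletionIntegers F)) := rfl
      rw [this, hw]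
      ring
    have h2 : f - w0 ∈ (v.asIdeal ^ 2).map C := by
      rw [Ideal.mem_map_C_iff]
      intro n
      refine mem_sq_of_dvd (F := F) v π hπ _ (h.coeff n) ?_
      have h3 := congrArg (fun p => coeff p n) h1
      simp only [coeff_C_mul] at h3
      rw [← h3, hφ, coe_mapRingHom, coeff_map]
    rw [Ideal.map_pow] at h2
    exact Ideal.pow_right_mono hC0 2 h2
  have hfJ : f ∈ J0 ^ 2 := by
    have := Ideal.add_mem _ hfw hw0
    rwa [sub_add_cancel] at this
  have hd : ∀ w ∈ J0 ^ 2, w ∈ J0 ∧ derivative w ∈ J0 ∧ dt w ∈ J0 := by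
    intro w hw
    rw [pow_two] at hw
    refine Submodule.mul_induction_on hw ?_ ?_
    · intro m hm n hn
      refine ⟨Ideal.mul_mem_left _ _ hn, ?_, ?_⟩
      · rw [derivative_mul]
        exact Ideal.add_mem _ (Ideal.mul_mem_left _ _ hn) (Ideal.mul_mem_right _ _ hm)
      · rw [dt_mul]
        exact Ideal.add_mem _ (Ideal.mul_mem_left _ _ hn) (Ideal.mul_mem_right _ _ hm)
    · rintro x y ⟨h1, h2, h3⟩ ⟨h4, h5, h6⟩
      refine ⟨Ideal.add_mem _ h1 h4, ?_, ?_⟩
      · rw [derivative_add]
        exact Ideal.add_mem _ h2 h5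
      · rw [dt_add]
        exact Ideal.add_mem _ h3 h6
  obtain ⟨h1, h2, h3⟩ := hd f hfJ
  have htop : J0 = ⊤ := by
    rw [eq_top_iff, ← hf, Ideal.span_le]
    rintro x (rfl | rfl | rfl)
    · exact h1
    · exact h2
    · exact h3
  have hone : (1 : (v.adicCompletionIntegers F)[X]) ∈ J := by
    have : (1 : k[X][X]) ∈ J0 := by rw [htop]; trivial
    rw [hJ0, Ideal.mem_comap, map_one] at this
    exact this
  have hle : J ≤ (Ideal.span {a.map (IsLocalRing.residue (v.adicCompletionIntegers F))}).comap
      (mapRingHom (IsLocalRing.residue (v.adicCompletionIntegers F))) := by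
    rw [hJ, sup_le_iff]
    constructor
    · rw [Ideal.span_le, Set.singleton_subset_iff, SetLike.mem_coe, Ideal.mem_comap]
      exact Ideal.subset_span rfl
    · rw [Ideal.map_le_iff_le_comap]
      intro m hm
      rw [Ideal.mem_comap, Ideal.mem_comap, coe_mapRingHom, map_C,
        (IsLocalRing.residue_eq_zero_iff _).2 hm, C_0]
      exact Ideal.zero_mem _
  have h4 := hle hone
  rw [Ideal.mem_comap, map_one, ← Ideal.eq_top_iff_one, Ideal.span_singleton_eq_top] at h4
  exact hirr.not_isUnit h4

end Pool.Agent.Y228.SE
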